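import Pool.Agent.Lib.MP_2d002d_gt.Basic

/-!
# MP_2d002d_gt, module M3 (Boch): integration by parts and Bochner's identity (helper90)
-/

set_option autoImplicit false

open MeasureTheory Set Filter Topology
open scoped ContDiff

namespace Pool.Agent.Lib.MP_2d002d_gt.H90

theorem ibp_dv : IBP := by
  intro n Ψ g X hΨ hg hX hXs
  have he : ContDiff ℝ 1 (fun x => Real.exp (-Ψ x)) := hΨ.neg.exp
  have hF : ∀ i, ContDiff ℝ 1 (fun x => g x * X i x * Real.exp (-Ψ x)) := fun i =>
    (hg.mul (hX i)).mul he
  have hFs : ∀ i, HasCompactSupport (fun x => g x * X i x * Real.exp (-Ψ x)) := fun i =>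
    ((hXs i).mul_left).mul_right
  have hd : ∀ {f : (Fin n → ℝ) → ℝ}, ContDiff ℝ 1 f → ∀ x, DifferentiableAt ℝ f x :=
    fun hf x => hf.differentiable (by simp) x
  have key : ∀ x, g x * dv Ψ X x * Real.exp (-Ψ x) =
      (∑ i, pd i (fun x => g x * X i x * Real.exp (-Ψ x)) x) -
        (∑ i, X i x * pd i g x) * Real.exp (-Ψ x) := by
    intro x
    unfold dv
    rw [Finset.mul_sum, Finset.sum_mul, Finset.sum_mul, ← Finset.sum_sub_distrib]
    refine Finset.sum_congr rfl fun i _ => ?_
    rw [pd_mul (hd (hg.mul (hX i)) x) (hd he x), pd_mul (hd hg x) (hd (hX i) x),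
      pd_exp (hd hΨ.neg x), pd_neg]
    ring
  rw [integral_congr_ae (Eventually.of_forall key), integral_sub, integral_finsetSum]
  · rw [Finset.sum_eq_zero (fun i _ => integral_pd_eq_zero (hF i) (hFs i) i), zero_sub]
  · intro i _
    exact (continuous_pd (hF i) i).integrable_of_hasCompactSupport (hasCompactSupport_pd (hFs i) i)
  · refine integrable_finsetSum _ fun i _ => ?_
    exact (continuous_pd (hF i) i).integrable_of_hasCompactSupport (hasCompactSupport_pd (hFs i) i)
  · simp only [Finset.sum_mul]
    refine integrable_finsetSum _ fun i _ => ?_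
    refine Continuous.integrable_of_hasCompactSupport ?_ ?_
    · exact ((hX i).continuous.mul (continuous_pd hg i)).mul he.continuous
    · exact ((hXs i).mul_right).mul_right

theorem boch : Boch := by
  intro n Ψ X hΨ hX hXs
  have h1 : ContDiff ℝ 1 Ψ := contDiff_one hΨ
  have hdvs : ContDiff ℝ ∞ (dv Ψ X) := by
    unfold dv
    exact ContDiff.sum fun i _ => (contDiff_pd (hX i) i).sub ((contDiff_pd hΨ i).mul (hX i))
  have hec : Continuous (fun x => Real.exp (-Ψ x)) := h1.continuous.neg.rexp
  -- the commutation formula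
  have hcomm : ∀ i x, pd i (dv Ψ X) x = dv Ψ (fun j => pd i (X j)) x -
      ∑ j, pd i (pd j Ψ) x * X j x := by
    intro i x
    have : pd i (dv Ψ X) x = pd i (fun y => ∑ j, (pd j (X j) y - pd j Ψ y * X j y)) x := rfl
    rw [this, pd_sum]
    · unfold dv
      rw [← Finset.sum_sub_distrib]
      refine Finset.sum_congr rfl fun j _ => ?_
      rw [pd_sub (diffAt (contDiff_pd (hX j) j) x)
        (diffAt ((contDiff_pd hΨ j).mul (hX j)) x),
        pd_mul (diffAt (contDiff_pd hΨ j) x) (diffAt (hX j) x), pd_symm (hX j) i j]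
      ring
    · intro j _
      exact diffAt ((contDiff_pd (hX j) j).sub ((contDiff_pd hΨ j).mul (hX j))) x
  -- first integration by parts
  have s1 : ∫ x, dv Ψ X x ^ 2 * Real.exp (-Ψ x) =
      - ∫ x, (∑ i, X i x * pd i (dv Ψ X) x) * Real.exp (-Ψ x) := by
    rw [← ibp_dv n Ψ (dv Ψ X) X h1 (contDiff_one hdvs) (fun i => contDiff_one (hX i)) hXs]
    exact integral_congr_ae (Eventually.of_forall fun x => by simp only []; ring)
  -- second integration by parts
  have s2 : ∀ i, ∫ x, X i x * dv Ψ (fun j => pd i (X j)) x * Real.exp (-Ψ x) =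
      - ∫ x, (∑ j, pd i (X j) x * pd j (X i) x) * Real.exp (-Ψ x) := by
    intro i
    exact ibp_dv n Ψ (X i) (fun j => pd i (X j)) h1 (contDiff_one (hX i))
      (fun j => contDiff_one (contDiff_pd (hX j) i)) (fun j => hasCompactSupport_pd (hXs j) i)
  have hI1 : ∀ i, Integrable (fun x => X i x * dv Ψ (fun j => pd i (X j)) x * Real.exp (-Ψ x)) := by
    intro i
    refine Continuous.integrable_of_hasCompactSupport ?_ ?_
    · refine ((hX i).continuous.mul ?_).mul hec
      unfold dv
      exact continuous_finsetSum _ fun j _ => ((contDiff_pd (contDiff_pd (hX j) i) j).continuous).sub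
        ((contDiff_pd hΨ j).continuous.mul (contDiff_pd (hX j) i).continuous)
    · exact ((hXs i).mul_right).mul_right
  have hI2 : ∀ i, Integrable (fun x => (∑ j, pd i (X j) x * pd j (X i) x) * Real.exp (-Ψ x)) := by
    intro i
    simp only [Finset.sum_mul]
    refine integrable_finsetSum _ fun j _ => ?_
    refine Continuous.integrable_of_hasCompactSupport ?_ ?_
    · exact ((contDiff_pd (hX j) i).continuous.mul (contDiff_pd (hX i) j).continuous).mul hec
    · exact ((hasCompactSupport_pd (hXs j) i).mul_right).mul_right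
  have hI3 : Integrable (fun x => (∑ i, ∑ j, pd i (pd j Ψ) x * X i x * X j x) *
      Real.exp (-Ψ x)) := by
    simp only [Finset.sum_mul]
    refine integrable_finsetSum _ fun i _ => integrable_finsetSum _ fun j _ => ?_
    refine Continuous.integrable_of_hasCompactSupport ?_ ?_
    · exact (((contDiff_pd (contDiff_pd hΨ j) i).continuous.mul (hX i).continuous).mul
        (hX j).continuous).mul hec
    · exact ((hXs j).mul_left).mul_right
  have s3 : ∀ x, (∑ i, X i x * pd i (dv Ψ X) x) * Real.exp (-Ψ x) =
      (∑ i, X i x * dv Ψ (fun j => pd i (X j)) x * Real.exp (-Ψ x)) -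
        (∑ i, ∑ j, pd i (pd j Ψ) x * X i x * X j x) * Real.exp (-Ψ x) := by
    intro x
    rw [Finset.sum_mul, Finset.sum_mul, ← Finset.sum_sub_distrib]
    refine Finset.sum_congr rfl fun i _ => ?_
    rw [hcomm i x, mul_sub, sub_mul, Finset.mul_sum]
    congr 2
    refine Finset.sum_congr rfl fun j _ => ?_
    ring
  rw [s1, integral_congr_ae (Eventually.of_forall s3), integral_sub
    (integrable_finsetSum _ fun i _ => hI1 i) hI3, integral_finsetSum _ fun i _ => hI1 i,
    Finset.sum_congr rfl fun i _ => s2 i, Finset.sum_neg_distrib, neg_sub, sub_neg_eq_add,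
    ← integral_finsetSum _ fun i _ => hI2 i, ← integral_add hI3
      (integrable_finsetSum _ fun i _ => hI2 i)]
  refine integral_congr_ae (Eventually.of_forall fun x => ?_)
  simp only []
  rw [add_mul, ← Finset.sum_mul]
  ring

end Pool.Agent.Lib.MP_2d002d_gt.H90
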